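import Pool.Agent.Lib.MP_dc4ce7_lc.Limit

/-!
`MEASURE(ℤ^n) = FIID(ℤ^n)` for every `n ≥ 1`.
-/

namespace Pool.Agent.Results.MP_dc4ce7_lc.MeasureEqFIID

open MeasureTheory

universe u

/-- A locally checkable labeling problem on `ℤ^n`: a finite label set, a radius `r` and a set of
allowed patterns on the ball `B_r = {v : |v_i| ≤ r for all i}`. -/
structure LCL (n : ℕ) where
  /-- the labels -/
  Label : Type
  finite : Finite Label
  /-- the radius -/
  r : ℕ
  /-- the allowed patterns on `B_r` -/
  allowed : Set ({v : Fin n → ℤ // ∀ i, |v i| ≤ (r : ℤ)} → Label)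

/-- `f` is correct at `x`: the pattern `v ↦ f (v · x)` on `B_r` is allowed. -/
def CorrectAt {n : ℕ} (P : LCL n) {X : Type*} [AddAction (Fin n → ℤ) X] (f : X → P.Label)
    (x : X) : Prop :=
  (fun v : {v : Fin n → ℤ // ∀ i, |v i| ≤ (P.r : ℤ)} => f ((v : Fin n → ℤ) +ᵥ x)) ∈ P.allowed

/-- There is a Borel map `X → Label` that is correct at almost every point. -/
def HasSolution {n : ℕ} (P : LCL n) (X : Type*) [MeasurableSpace X] [AddAction (Fin n → ℤ) X]
    (μ : Measure X) : Prop :=
  ∃ f : X → P.Label, (∀ a, MeasurableSet (f ⁻¹' {a})) ∧ ∀ᵐ x ∂μ, CorrectAt P f x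

/-- The class `MEASURE(ℤ^n)`: solvable for every free Borel action on a standard Borel space and
every Borel probability measure (no invariance is assumed). -/
def MEASURE (n : ℕ) : Set (LCL n) :=
  {P | ∀ (X : Type u) [MeasurableSpace X] [StandardBorelSpace X] [AddAction (Fin n → ℤ) X],
    (∀ v : Fin n → ℤ, Measurable fun x : X => v +ᵥ x) →
    (∀ (v : Fin n → ℤ) (x : X), v +ᵥ x = x → v = 0) →
    ∀ μ : Measure X, IsProbabilityMeasure μ → HasSolution P X μ}

/-- The free part of the shift of `ℤ^n` on `[0,1]^(ℤ^n)`. -/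
abbrev FreePart (n : ℕ) : Type :=
  {ω : (Fin n → ℤ) → unitInterval // ∀ v : Fin n → ℤ, (fun u => ω (u + v)) = ω → v = 0}

/-- The shift action `(v · ω)(u) = ω(u + v)` on the free part. -/
instance (n : ℕ) : AddAction (Fin n → ℤ) (FreePart n) where
  vadd v ω := ⟨fun u => ω.1 (u + v), fun w hw => ω.2 w (by
    funext u
    have h := congrFun hw (u - v)
    have e1 : u - v + w + v = u + w := by abel
    have e2 : u - v + v = u := by abel
    simp only [e1, e2] at h
    exact h)⟩
  zero_vadd ω := Subtype.ext (by
    funext u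
    change ω.1 (u + 0) = ω.1 u
    rw [add_zero])
  add_vadd v w ω := Subtype.ext (by
    funext u
    change ω.1 (u + (v + w)) = ω.1 (u + v + w)
    rw [add_assoc])

/-- The product of Lebesgue measures, restricted to the free part. -/
noncomputable def bernoulli (n : ℕ) : Measure (FreePart n) :=
  (Measure.infinitePi fun _ : Fin n → ℤ => (volume : Measure unitInterval)).comap Subtype.val

/-- The class `FIID(ℤ^n)`. -/
def FIID (n : ℕ) : Set (LCL n) := {P | HasSolution P (FreePart n) (bernoulli n)}

section Aux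

open MPdc4ce7 Set

/-- The free part as a set. -/
def Fr (n : ℕ) : Set (Zn n → unitInterval) :=
  {ω | ∀ v : Zn n, (fun u => ω (u + v)) = ω → v = 0}

lemma fr_sh {n : ℕ} (v : Zn n) {ω : Zn n → unitInterval} (hω : ω ∈ Fr n) : sh v ω ∈ Fr n := by
  intro w hw
  refine hω w ?_
  funext u
  have h := congrFun hw (u - v)
  simp only [sh_apply] at h
  have e1 : u - v + w + v = u + w := by abel
  have e2 : u - v + v = u := by abel
  rw [e1, e2] at h
  exact h

lemma fr_meas (n : ℕ) : MeasurableSet (Fr n) := by
  have : Fr n = ⋂ v : Zn n, {ω | sh v ω = ω → v = 0} := by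
    ext ω
    simp only [Fr, Set.mem_iInter, Set.mem_ofPred_eq]
    rfl
  rw [this]
  refine MeasurableSet.iInter fun v => ?_
  by_cases hv : v = 0
  · have : {ω : Zn n → unitInterval | sh v ω = ω → v = 0} = Set.univ := by
      ext ω; simp [hv]
    rw [this]; exact MeasurableSet.univ
  · have : {ω : Zn n → unitInterval | sh v ω = ω → v = 0} = {ω | sh v ω = ω}ᶜ := by
      ext ω; simp [hv]
    rw [this]
    exact (measurableSet_eq_fun (measurable_sh v) measurable_id).compl

lemma fr_null (n : ℕ) : PP n (volume : Measure unitInterval) (Fr n)ᶜ = 0 := by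
  have hsub : (Fr n)ᶜ ⊆ ⋃ v : {v : Zn n // v ≠ 0}, {ω | ω (v : Zn n) = ω 0} := by
    intro ω hω
    simp only [Fr, Set.mem_compl_iff, Set.mem_ofPred_eq, not_forall] at hω
    obtain ⟨v, hv, hv0⟩ := hω
    refine Set.mem_iUnion.2 ⟨⟨v, hv0⟩, ?_⟩
    have := congrFun hv 0
    simpa using this
  refine measure_mono_null hsub (measure_iUnion_null ?_)
  rintro ⟨v, hv⟩
  have hmap := Measure.infinitePi_map_eval_prod
    (P := fun _ : Zn n => (volume : Measure unitInterval)) hv
  have hdiag : MeasurableSet {p : unitInterval × unitInterval | p.1 = p.2} :=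
    measurableSet_eq_fun measurable_fst measurable_snd
  have hpre : {ω : Zn n → unitInterval | ω v = ω 0} =
      (fun ω => (ω v, ω 0)) ⁻¹' {p : unitInterval × unitInterval | p.1 = p.2} := rfl
  change PP n (volume : Measure unitInterval) {ω | ω v = ω 0} = 0
  rw [hpre, PP, ← Measure.map_apply (by fun_prop) hdiag, hmap, Measure.measure_prod_null hdiag]
  refine Filter.Eventually.of_forall fun x => ?_
  have : Prod.mk x ⁻¹' {p : unitInterval × unitInterval | p.1 = p.2} = {x} := by
    ext y
    simp only [Set.mem_preimage, Set.mem_ofPred_eq, Set.mem_singleton_iff]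
    exact eq_comm
  simp only [this, measure_singleton, Pi.zero_apply]

lemma bern_embed (n : ℕ) :
    MeasurableEmbedding (Subtype.val : FreePart n → (Zn n → unitInterval)) :=
  MeasurableEmbedding.subtype_coe (fr_meas n)

lemma bern_apply (n : ℕ) (A : Set (FreePart n)) :
    bernoulli n A = PP n (volume : Measure unitInterval) (Subtype.val '' A) :=
  (bern_embed n).comap_apply _ _

instance (n : ℕ) : IsProbabilityMeasure (bernoulli n) := by
  constructor
  rw [bern_apply, Set.image_univ]
  have h1 : Set.range (Subtype.val : FreePart n → (Zn n → unitInterval)) = Fr n :=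
    Subtype.range_val
  rw [h1, prob_compl_eq_zero_iff (fr_meas n) |>.1 (fr_null n)]

instance (n : ℕ) : StandardBorelSpace (FreePart n) := (fr_meas n).standardBorel

lemma bern_measurable {n : ℕ} (v : Fin n → ℤ) : Measurable fun x : FreePart n => v +ᵥ x := by
  refine Measurable.subtype_mk ?_
  exact (measurable_sh v).comp measurable_subtype_coe

lemma bern_free {n : ℕ} (v : Fin n → ℤ) (x : FreePart n) (h : v +ᵥ x = x) : v = 0 :=
  x.2 v (congrArg Subtype.val h)

lemma mem_ball {n r : ℕ} {v : Zn n} : v ∈ box n (-(r : ℤ)) (r + 1) ↔ ∀ i, |v i| ≤ (r : ℤ) := by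
  rw [mem_box]
  refine forall_congr' fun i => ?_
  rw [abs_le]
  omega

/-- The hard inclusion. -/
lemma fiid_le {n : ℕ} (hn : 1 ≤ n) (P : LCL n) (hP : HasSolution P (FreePart n) (bernoulli n))
    (X : Type u) [MeasurableSpace X] [StandardBorelSpace X] [AddAction (Fin n → ℤ) X]
    (hmeas : ∀ v : Fin n → ℤ, Measurable fun x : X => v +ᵥ x)
    (hfree : ∀ (v : Fin n → ℤ) (x : X), v +ᵥ x = x → v = 0)
    (μ : Measure X) (hμ : IsProbabilityMeasure μ) : HasSolution P X μ := by
  classical
  obtain ⟨f, hf, hfc⟩ := hP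
  have hfin := P.finite
  have hne : Nonempty (FreePart n) := by
    by_contra h
    rw [not_nonempty_iff] at h
    have h1 : bernoulli n Set.univ = 1 := measure_univ
    rw [Set.eq_empty_of_isEmpty (Set.univ : Set (FreePart n)), measure_empty] at h1
    exact zero_ne_one h1
  obtain ⟨x₀⟩ := hne
  let _ : Fintype P.Label := Fintype.ofFinite _
  let _ : MeasurableSpace P.Label := ⊤
  have hfm : Measurable f := measurable_to_countable' hf
  -- extend `f` to all configurations
  let φ : (Zn n → unitInterval) → P.Label := fun ω =>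
    if h : ω ∈ Fr n then f ⟨ω, h⟩ else f x₀
  have hφ : Measurable φ := by
    refine Measurable.dite (s := Fr n) (f := fun ω : Fr n => f ⟨ω.1, ω.2⟩)
      (g := fun _ => f x₀) ?_ measurable_const (fr_meas n)
    exact hfm
  -- the correct configurations
  let ok : (Zn n → P.Label) → Prop := fun z =>
    (fun v : {v : Fin n → ℤ // ∀ i, |v i| ≤ (P.r : ℤ)} => z v) ∈ P.allowed
  let C : Set (Zn n → unitInterval) := Fr n ∩ {ω | ok (cf φ ω)}
  have hCm : MeasurableSet C := by
    refine (fr_meas n).inter ?_
    have h := measurable_of_agree (S := box n (-(P.r : ℤ)) (P.r + 1)) hφ (β := Prop)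
      (f := fun ω => ok (cf φ ω)) ?_
    · exact measurableSet_setOfPred.2 h
    · intro ω₁ ω₂ h
      have : (fun v : {v : Fin n → ℤ // ∀ i, |v i| ≤ (P.r : ℤ)} => cf φ ω₁ v) =
          (fun v : {v : Fin n → ℤ // ∀ i, |v i| ≤ (P.r : ℤ)} => cf φ ω₂ v) := by
        funext v
        exact h v.1 (mem_ball.2 v.2)
      simp only [ok]
      rw [this]
  have hcf : ∀ ω (hω : ω ∈ Fr n) (v : Zn n), cf φ ω v = f (v +ᵥ (⟨ω, hω⟩ : FreePart n)) := by
    intro ω hω v
    change (if h : sh v ω ∈ Fr n then f ⟨sh v ω, h⟩ else f x₀) = _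
    rw [dif_pos (fr_sh v hω)]
    rfl
  have hC0 : PP n (volume : Measure unitInterval) Cᶜ = 0 := by
    have hsub : Cᶜ ⊆ (Fr n)ᶜ ∪ Subtype.val '' {x : FreePart n | ¬ CorrectAt P f x} := by
      intro ω hω
      by_cases h : ω ∈ Fr n
      · right
        refine ⟨⟨ω, h⟩, ?_, rfl⟩
        intro hc
        apply hω
        refine ⟨h, ?_⟩
        change (fun v : {v : Fin n → ℤ // ∀ i, |v i| ≤ (P.r : ℤ)} => cf φ ω v) ∈ P.allowed
        have : (fun v : {v : Fin n → ℤ // ∀ i, |v i| ≤ (P.r : ℤ)} => cf φ ω v) =
            fun v : {v : Fin n → ℤ // ∀ i, |v i| ≤ (P.r : ℤ)} =>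
              f ((v : Fin n → ℤ) +ᵥ (⟨ω, h⟩ : FreePart n)) := by
          funext v
          exact hcf ω h v.1
        rw [this]
        exact hc
      · exact Or.inl h
    refine measure_mono_null hsub (measure_union_null (fr_null n) ?_)
    rw [← bern_apply]
    exact hfc
  let O : Set (Zn n → unitInterval) := ⋂ v : Zn n, sh v ⁻¹' C
  have hOm : MeasurableSet O := MeasurableSet.iInter fun v => measurable_sh v hCm
  have hO0 : PP n (volume : Measure unitInterval) Oᶜ = 0 := by
    have : Oᶜ = ⋃ v : Zn n, sh v ⁻¹' Cᶜ := by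
      ext ω; simp [O]
    rw [this]
    refine measure_iUnion_null fun v => ?_
    rw [(measurePreserving_sh (volume : Measure unitInterval) v).measure_preimage
      hCm.compl.nullMeasurableSet]
    exact hC0
  let S : Setup n unitInterval P.Label :=
    { lam := volume
      prob := inferInstance
      φ := φ
      hφ := hφ
      O := O
      hO := hOm
      hO0 := hO0
      hOsh := by
        intro v ω hω
        rw [Set.mem_iInter] at hω ⊢
        intro w
        rw [Set.mem_preimage, sh_sh]
        exact hω (w + v)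
      r := P.r
      ok := ok
      hok := by
        intro z z' h hz
        have : (fun v : {v : Fin n → ℤ // ∀ i, |v i| ≤ (P.r : ℤ)} => z' v) =
            (fun v : {v : Fin n → ℤ // ∀ i, |v i| ≤ (P.r : ℤ)} => z v) := by
          funext v
          exact (h v.1 (mem_ball.2 v.2)).symm
        change (fun v : {v : Fin n → ℤ // ∀ i, |v i| ≤ (P.r : ℤ)} => z' v) ∈ P.allowed
        rw [this]
        exact hz
      good := by
        intro ω hω
        have h := Set.mem_iInter.1 hω 0
        rw [Set.mem_preimage, sh_zero] at h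
        exact h.2 }
  obtain ⟨g, hg, hgc⟩ := exists_solution S hn hmeas hfree μ
  refine ⟨g, fun a => hg (measurableSet_singleton a), ?_⟩
  filter_upwards [hgc] with x hx
  exact hx

lemma ulift_standardBorel (α : Type) [MeasurableSpace α] [StandardBorelSpace α] :
    StandardBorelSpace (ULift.{u} α) := by
  let := upgradeStandardBorel α
  have : PolishSpace (ULift.{u} α) := Homeomorph.ulift.isClosedEmbedding.polishSpace
  infer_instance

/-- The easy inclusion. -/
lemma le_fiid {n : ℕ} (P : LCL n) (hP : P ∈ MEASURE.{u} n) : P ∈ FIID n := by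
  let _ : AddAction (Fin n → ℤ) (ULift.{u} (FreePart n)) :=
    { vadd := fun v x => ⟨v +ᵥ x.down⟩
      zero_vadd := fun x => congrArg ULift.up (zero_vadd _ x.down)
      add_vadd := fun v w x => congrArg ULift.up (add_vadd v w x.down) }
  have hsb : StandardBorelSpace (ULift.{u} (FreePart n)) := ulift_standardBorel (FreePart n)
  have hup : Measurable (ULift.up : FreePart n → ULift.{u} (FreePart n)) := measurable_up
  have hdown : Measurable (ULift.down : ULift.{u} (FreePart n) → FreePart n) := measurable_down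
  have hprob : IsProbabilityMeasure ((bernoulli n).map (ULift.up : FreePart n → ULift.{u} _)) :=
    Measure.isProbabilityMeasure_map hup.aemeasurable
  obtain ⟨f, hf, hfc⟩ := hP (ULift.{u} (FreePart n))
    (fun v => hup.comp ((bern_measurable v).comp hdown))
    (fun v x h => bern_free v x.down (congrArg ULift.down h))
    ((bernoulli n).map ULift.up) hprob
  refine ⟨fun x => f ⟨x⟩, fun a => hup (hf a), ?_⟩
  exact ae_of_ae_map hup.aemeasurable hfc

end Aux

/-- For every `n ≥ 1`, a locally checkable problem on `ℤ^n` has a measurable solution for every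
free Borel action on a standard Borel space and every Borel probability measure if and only if
it has one on the free part of the Bernoulli shift. -/
theorem result (n : ℕ) (hn : 1 ≤ n) : MEASURE.{u} n = FIID n := by
  ext P
  constructor
  · exact le_fiid P
  · intro hP X _ _ _ hmeas hfree μ hμ
    exact fiid_le hn P hP X hmeas hfree μ hμ

end Pool.Agent.Results.MP_dc4ce7_lc.MeasureEqFIID
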